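import Pool.Agent.helper82.VD.SpecJ
import Pool.Agent.helper94.VDG.GGV

/-!
# Project VD, block B3, row GVV (the uniform volume lemma, both directions)
-/

set_option autoImplicit false

open MeasureTheory Filter Set Topology Pool.Agent.VDE Pool.Agent.VD
open scoped ENNReal

namespace Pool.Agent.VDG

theorem GVV_sz {S : Type} {m : ℕ} (f : ℝ → S → S) (κ : S → EE m → S) (F : S → S → EE m → EE m) (z : S) (n : ℕ) (ρ : ℝ) : SZ f κ F z 0 n ρ = SB (orz f κ F z 0) n ρ := by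
  ext a
  show a - 0 ∈ SB (orz f κ F z 0) n ρ ↔ a ∈ SB (orz f κ F z 0) n ρ
  rw [sub_zero]

theorem GVV_orz {S : Type} {m : ℕ} (f : ℝ → S → S) (κ : S → EE m → S) (F : S → S → EE m → EE m) (f0 : ∀ x, f 0 x = x) (k0 : ∀ z, κ z 0 = z) (z : S) : orz f κ F z 0 = orb f F z := by
  funext i u
  cases i with
  | zero =>
    show F z (f 1 (κ z 0)) (0 + u) = F (f ((0 : ℕ) : ℝ) z) (f (((0 : ℕ) : ℝ) + 1) z) u
    rw [k0, zero_add, Nat.cast_zero, f0, zero_add]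
  | succ i =>
    show orb f F (κ z 0) (i + 1) u = orb f F z (i + 1) u
    rw [k0]

theorem GVV_orb {S : Type} {m : ℕ} (f : ℝ → S → S) (F : S → S → EE m → EE m) (fa : ∀ (s t : ℝ) (x : S), f (s + t) x = f s (f t x)) (x : S) (n k : ℕ) : orb f F (f n x) k = orb f F x (n + k) := by
  have h1 : f (k : ℝ) (f (n : ℝ) x) = f ((n + k : ℕ) : ℝ) x := by
    rw [← fa]; congr 1; push_cast; ring
  have h2 : f ((k : ℝ) + 1) (f (n : ℝ) x) = f (((n + k : ℕ) : ℝ) + 1) x := by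
    rw [← fa]; congr 1; push_cast; ring
  show F (f (k : ℝ) (f (n : ℝ) x)) (f ((k : ℝ) + 1) (f (n : ℝ) x)) = F (f ((n + k : ℕ) : ℝ) x) (f (((n + k : ℕ) : ℝ) + 1) x)
  rw [h1, h2]

theorem GVV_mn {m : ℕ} (F : ℕ → EE m → EE m) (n n' : ℕ) (ρ ρ' : ℝ) (hn : n' ≤ n) (hρ : ρ ≤ ρ') : SB F n ρ ⊆ SB F n' ρ' :=
  fun _ ha i hi => (ha i (hi.trans hn)).trans hρ

/-- moving the base point back in time -/
theorem GVV_back {S : Type} [MeasurableSpace S] (μ : Measure S) (d : S → S → ℝ) (f : ℝ → S → S) (C : ℝ) (hC : 1 ≤ C) (f0 : ∀ x, f 0 x = x) (fa : ∀ (s t : ℝ) (x : S), f (s + t) x = f s (f t x))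
    (fm : ∀ t : ℝ, MeasurePreserving (f t) μ μ) (lp : ∀ (x y : S) (t : ℝ), |t| ≤ 2 → d (f t x) (f t y) ≤ C * d x y) (x : S) (T U ε : ℝ) (n k : ℕ) (hε : 0 < ε) (h1 : T ≤ n) (h2 : (n : ℝ) ≤ T + 1) (h3 : U ≤ k) :
    μ (BB d f k (f n x) (ε / C)) ≤ μ (BB d f U (f T x) ε) := by
  have hC0 : 0 < C := lt_of_lt_of_le one_pos hC
  have hk : (0 : ℝ) ≤ k := Nat.cast_nonneg k
  refine GGV_flow μ f f0 fa fm (T - n) _ _ ?_
  intro y hy r hr
  have h5 : f r (f T x) = f (r - (n - T)) (f n x) := by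
    rw [← fa, ← fa]; congr 1; ring
  have h6 : f r (f (T - n) y) = f (r - (n - T)) y := by
    rw [← fa]; congr 1; ring
  rw [h5, h6]
  have hle : ε / C ≤ ε := div_le_self hε.le hC
  by_cases h7 : (n : ℝ) - T ≤ r
  · refine (hy _ ⟨by linarith, ?_⟩).trans hle
    have := hr.2; linarith
  · have h8 : |r - (n - T)| ≤ 2 := by
      rw [abs_le]
      have := hr.1
      constructor <;> linarith
    refine (lp _ _ _ h8).trans ?_
    have h9 := hy 0 ⟨le_rfl, hk⟩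
    rw [f0, f0] at h9
    calc C * d (f n x) y ≤ C * (ε / C) := by gcongr
      _ = ε := by field_simp

theorem GVV_div (c : ℝ) (hc : 0 < c) (a b : ℝ≥0∞) (h : ENNReal.ofReal c * a ≤ b) : a ≤ ENNReal.ofReal c⁻¹ * b := by
  have h1 : ENNReal.ofReal c⁻¹ * ENNReal.ofReal c = 1 := by
    rw [← ENNReal.ofReal_mul (inv_nonneg.mpr hc.le), inv_mul_cancel₀ hc.ne', ENNReal.ofReal_one]
  calc a = ENNReal.ofReal c⁻¹ * ENNReal.ofReal c * a := by rw [h1, one_mul]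
    _ = ENNReal.ofReal c⁻¹ * (ENNReal.ofReal c * a) := mul_assoc _ _ _
    _ ≤ ENNReal.ofReal c⁻¹ * b := by gcongr

theorem GVV_fl (T U : ℝ) (hT : 0 ≤ T) (hU : 0 ≤ U) : ⌈T⌉₊ + ⌈U⌉₊ ≤ ⌊T + U⌋₊ + 2 := by
  have h1 : (⌈T⌉₊ : ℝ) < T + 1 := Nat.ceil_lt_add_one hT
  have h2 : (⌈U⌉₊ : ℝ) < U + 1 := Nat.ceil_lt_add_one hU
  have h3 : T + U < (⌊T + U⌋₊ : ℝ) + 1 := Nat.lt_floor_add_one _
  have h4 : ((⌈T⌉₊ + ⌈U⌉₊ : ℕ) : ℝ) < ((⌊T + U⌋₊ + 3 : ℕ) : ℝ) := by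
    push_cast
    linarith
  have h5 : ⌈T⌉₊ + ⌈U⌉₊ < ⌊T + U⌋₊ + 3 := by exact_mod_cast h4
  omega

theorem GVV_proof (hGZD : GZD_stmt) (hGZI : GZI_stmt) (hGZO : GZO_stmt) (hGSX : GSX_stmt) (hGSB : GSB_stmt) : GVV_stmt := by
  intro m H' C e C1 ν ρ0 hC he hH
  have hb := hH.hb
  have hC0 : 0 < C := lt_of_lt_of_le one_pos hC
  have hρ0 := hb.hρ
  obtain ⟨eA, C2, heA, heA2, heA3, hC2, gA⟩ := hGZD C e C1 ρ0 hC he hb.hC hρ0
  obtain ⟨eB, ρ1, C3, heB, heB2, heB3, hρ1, hρ1B, hC3, gB⟩ := hGZI C e C1 ρ0 hC he hb.hC hρ0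
  obtain ⟨eC, ε1, C4, heC, heC2, heC3, hε1, hC4, hC4e, gC⟩ := hGZO C e C1 ρ0 hC he hb.hC hρ0
  have hC3p : 0 < C3 := lt_of_lt_of_le one_pos hC3
  have hC4p : 0 < C4 := lt_of_lt_of_le one_pos hC4
  obtain ⟨b1, b2, b3, b4⟩ := hGSB H' C1 ρ0 hb
  refine ⟨ε1, hε1, ?_⟩
  intro ε' ε hε' hε'1 hε hε1'
  -- the radii
  set ρA : ℝ := C4 * ε with hρA
  have hρApos : 0 < ρA := mul_pos hC4p hε
  have hρAC : ρA ≤ eC := (mul_le_mul_of_nonneg_left hε1' hC4p.le).trans hC4e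
  have hρA0 : ρA ≤ ρ0 := by linarith
  have hρAe : ρA ≤ e := by linarith
  set ρ' : ℝ := min ρ1 (min (ε' / C / C3) ρA) with hρ'
  have hρ'pos : 0 < ρ' := lt_min hρ1 (lt_min (div_pos (div_pos hε' hC0) hC3p) hρApos)
  have r3 : ρ' ≤ ρ1 := min_le_left _ _
  have r4 : ρ' ≤ ε' / C / C3 := (min_le_right _ _).trans (min_le_left _ _)
  have r5 : ρ' ≤ ρA := (min_le_right _ _).trans (min_le_right _ _)
  have r7 : C3 * ρ' ≤ ε' / C := by
    rw [le_div_iff₀ hC3p] at r4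
    linarith
  have r8 : ε' / C ≤ ε' := div_le_self hε'.le hC
  set ρ2 : ℝ := min ρ1 (ε / C3) with hρ2
  have hρ2pos : 0 < ρ2 := lt_min hρ1 (div_pos hε hC3p)
  have s3 : ρ2 ≤ ρ1 := min_le_left _ _
  have s7 : C3 * ρ2 ≤ ε := by
    have h := min_le_right ρ1 (ε / C3)
    rw [← hρ2, le_div_iff₀ hC3p] at h
    linarith
  -- the constants
  obtain ⟨c0, hc0, hc⟩ := b4 ρ' ρA hρ'pos r5 hρA0
  obtain ⟨Ca, hCa, ga⟩ := hGSX H' C1 ρ0 hb ρA ρA hρApos hρA0 hρApos hρA0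
  obtain ⟨Cb, hCb, gb⟩ := hH.gvu ρ' ρA hρ'pos (r5.trans hρA0) hρApos hρA0
  have hbig : 0 < C * ρA := mul_pos hC0 hρApos
  have hsm : 0 < C⁻¹ * ρ' := mul_pos (inv_pos.mpr hC0) hρ'pos
  have hsm2 : 0 < C⁻¹ * ρ2 := mul_pos (inv_pos.mpr hC0) hρ2pos
  set v2 : ℝ := (volume (Metric.closedBall (0 : EE m) ρ2)).toReal with hv2
  set vA : ℝ := (volume (Metric.closedBall (0 : EE m) ρA)).toReal with hvA
  have fin2 : volume (Metric.closedBall (0 : EE m) ρ2) ≠ ⊤ := measure_closedBall_lt_top.ne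
  have finA : volume (Metric.closedBall (0 : EE m) ρA) ≠ ⊤ := measure_closedBall_lt_top.ne
  have hv2p : 0 < v2 := ENNReal.toReal_pos (Metric.measure_closedBall_pos volume _ hρ2pos).ne' fin2
  have hvAp : 0 ≤ vA := ENNReal.toReal_nonneg
  set k1 : ℝ := (c0 * (C⁻¹ * ρ') / (C * ρA) ^ 2)⁻¹ with hk1
  set k2 : ℝ := C * ρA * (Ca * (Cb * ((C⁻¹ * ρ') * (C⁻¹ * ρ'))⁻¹)) with hk2
  set k3 : ℝ := (C⁻¹ * ρ2 * v2)⁻¹ with hk3
  set k4 : ℝ := C * ρA * vA with hk4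
  have k1p : 0 ≤ k1 := by rw [hk1]; positivity
  have k2p : 0 ≤ k2 := by rw [hk2]; positivity
  have k3p : 0 < k3 := by rw [hk3]; positivity
  have k4p : 0 ≤ k4 := by rw [hk4]; positivity
  refine ⟨1 + k1 + k2 + k3 + k4, by linarith, ?_⟩
  intro S _ μ d f H κ F τ hS2 hR x T U hT hU
  have hS := hS2.sct
  have hz : ‖(0 : EE m)‖ ≤ eA ∧ ‖(0 : EE m)‖ ≤ eB ∧ ‖(0 : EE m)‖ ≤ eC := by
    rw [norm_zero]; exact ⟨heA.le, heB.le, heC.le⟩
  have hOrz := GVV_orz f κ F hS.f0 hS.k0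
  have g1 : ∀ (y : S) (i : ℕ), H' (orb f F y i) ∧ orb f F y i 0 = 0 := by
    intro y i
    have h := (gA μ d f H H' κ F τ hS2 hb hR y 0 hz.1).2.2.1 i
    rw [hOrz y] at h
    exact h
  have g2 := GVV_orb f F hS.fa
  have g4 : ∀ (y : S) (l : ℕ) (ρ : ℝ), 0 ≤ ρ → ρ ≤ ρ1 → bxs f κ y (SB (orb f F y) l ρ) ρ ⊆ BB d f l y (C3 * ρ) := by
    intro y l ρ h1 h2
    have h := gB μ d f H H' κ F τ hS2 hb hR y 0 hz.2.1 l ρ h1 h2
    rw [GVV_sz, hOrz y, hS.k0] at h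
    exact h
  have g5 : ∀ (y : S) (l : ℕ), BB d f l y ε ⊆ bxs f κ y (SB (orb f F y) l ρA) ρA := by
    intro y l
    have h := (gC μ d f H H' κ F τ hS2 hb hR y 0 hz.2.2 l ε hε.le hε1').1
    rw [GVV_sz, hOrz y, hS.k0] at h
    exact h
  have hsub : ∀ (y : S) (l : ℕ), SB (orb f F y) l ρA ⊆ Metric.closedBall 0 e := by
    intro y l
    exact (b2 _ l ρA).trans (Metric.closedBall_subset_closedBall hρAe)
  have hup : ∀ (y : S) (l : ℕ), μ (BB d f l y ε) ≤ ENNReal.ofReal (C * ρA) * volume (SB (orb f F y) l ρA) := by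
    intro y l
    exact (measure_mono (g5 y l)).trans (hS.mle y _ ρA (hsub y l) (b3 (orb f F y) l ρA hρA0 (fun i _ => (g1 y i).1)).measurableSet hρApos.le hρAe)
  have hlow : ∀ (ρ : ℝ), 0 < ρ → ρ ≤ ρ1 → ∀ (y : S) (l : ℕ), ENNReal.ofReal (C⁻¹ * ρ) * volume (SB (orb f F y) l ρ) ≤ μ (BB d f l y (C3 * ρ)) := by
    intro ρ h1 h2 y l
    have h3 : ρ ≤ e := by linarith
    have h4 : ρ ≤ ρ0 := by linarith
    have s1 : SB (orb f F y) l ρ ⊆ Metric.closedBall 0 e := (b2 _ _ _).trans (Metric.closedBall_subset_closedBall h3)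
    have s2 : IsClosed (SB (orb f F y) l ρ) := b3 _ _ _ h4 (fun i _ => (g1 y i).1)
    exact (hS.lem y _ ρ s1 s2.measurableSet h1.le h3).trans (measure_mono (g4 y l ρ h1.le h2))
  have hmon : ∀ c : ℝ, c ≤ 1 + k1 + k2 + k3 + k4 → ENNReal.ofReal c ≤ ENNReal.ofReal (1 + k1 + k2 + k3 + k4) := fun c h => ENNReal.ofReal_le_ofReal h
  refine ⟨?_, ?_, ?_, ?_⟩
  · -- (1)
    set n : ℕ := ⌊T⌋₊ with hn
    set k : ℕ := ⌊U⌋₊ - 1 with hk
    have n1 : (n : ℝ) ≤ T := Nat.floor_le hT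
    have n2 : T < n + 1 := Nat.lt_floor_add_one T
    have k2' : U < k + 2 := by
      have h1 : U < (⌊U⌋₊ : ℝ) + 1 := Nat.lt_floor_add_one U
      have h2 : ⌊U⌋₊ ≤ k + 1 := by omega
      have h3 : (⌊U⌋₊ : ℝ) ≤ (k : ℝ) + 1 := by exact_mod_cast h2
      linarith
    have hA : μ (BB d f T x ε) ≤ ENNReal.ofReal (C * ρA) * volume (SB (orb f F x) n ρA) :=
      (measure_mono (GGV_mono d f T n x ε ε n1 le_rfl)).trans (hup x n)
    have horb : (fun i => orb f F x (n + 1 + i)) = orb f F (f ((n : ℝ) + 1) x) := by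
      funext i
      have h := g2 x (n + 1) i
      rw [Nat.cast_add, Nat.cast_one] at h
      exact h.symm
    have hB : μ (BB d f U (f T x) ε) ≤ ENNReal.ofReal (C * ρA) * volume (SB (fun i => orb f F x (n + 1 + i)) k ρA) := by
      rw [horb]
      by_cases h1 : 1 ≤ U
      · have hk1' : (k : ℝ) + 1 ≤ U := by
          have h2 : 1 ≤ ⌊U⌋₊ := Nat.le_floor (by exact_mod_cast h1)
          have h3 : k + 1 = ⌊U⌋₊ := by omega
          have h4 : (k : ℝ) + 1 = (⌊U⌋₊ : ℝ) := by exact_mod_cast h3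
          rw [h4]
          exact Nat.floor_le hU
        have hstep : μ (BB d f U (f T x) ε) ≤ μ (BB d f k (f ((n : ℝ) + 1) x) ε) := by
          refine GGV_flow μ f hS.f0 hS.fa hS.fm ((n : ℝ) + 1 - T) _ _ ?_
          intro y hy r hr
          have h5 : f r (f ((n : ℝ) + 1) x) = f (r + ((n : ℝ) + 1 - T)) (f T x) := by
            rw [← hS.fa, ← hS.fa]
            congr 1
            ring
          have h6 : f r (f ((n : ℝ) + 1 - T) y) = f (r + ((n : ℝ) + 1 - T)) y := (hS.fa _ _ _).symm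
          rw [h5, h6]
          refine hy _ ⟨?_, ?_⟩
          · have := hr.1; linarith
          · have := hr.2; linarith
        exact hstep.trans (hup _ k)
      · have h1' : U < 1 := not_le.mp h1
        have h2 : ⌊U⌋₊ = 0 := Nat.floor_eq_zero.mpr h1'
        have hk0 : k = 0 := by omega
        have h3 : μ (BB d f U (f T x) ε) ≤ ENNReal.ofReal (C * ρA) * volume (SB (orb f F (f T x)) 0 ρA) := by
          have h4 := hup (f T x) 0
          rw [Nat.cast_zero] at h4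
          exact (measure_mono (GGV_mono d f U 0 (f T x) ε ε hU le_rfl)).trans h4
        rw [hk0]
        rw [b1] at h3 ⊢
        exact h3
    have hD : ENNReal.ofReal (C⁻¹ * ρ') * volume (SB (orb f F x) (n + k + 3) ρ') ≤ μ (BB d f (T + U) x ε') := by
      refine (hlow ρ' hρ'pos r3 x (n + k + 3)).trans (measure_mono (GGV_mono d f _ _ x _ _ ?_ (r7.trans r8)))
      push_cast
      linarith
    have hcc : ENNReal.ofReal (c0 * (C⁻¹ * ρ') / (C * ρA) ^ 2) * (ENNReal.ofReal (C * ρA) * ENNReal.ofReal (C * ρA)) = ENNReal.ofReal (C⁻¹ * ρ') * ENNReal.ofReal c0 := by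
      rw [← ENNReal.ofReal_mul hbig.le, ← ENNReal.ofReal_mul (by positivity), ← ENNReal.ofReal_mul (by positivity)]
      congr 1
      field_simp
    have hfin : ENNReal.ofReal (c0 * (C⁻¹ * ρ') / (C * ρA) ^ 2) * (μ (BB d f T x ε) * μ (BB d f U (f T x) ε)) ≤ μ (BB d f (T + U) x ε') := by
      calc ENNReal.ofReal (c0 * (C⁻¹ * ρ') / (C * ρA) ^ 2) * (μ (BB d f T x ε) * μ (BB d f U (f T x) ε))
          ≤ ENNReal.ofReal (c0 * (C⁻¹ * ρ') / (C * ρA) ^ 2) * ((ENNReal.ofReal (C * ρA) * volume (SB (orb f F x) n ρA)) * (ENNReal.ofReal (C * ρA) * volume (SB (fun i => orb f F x (n + 1 + i)) k ρA))) := by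
            gcongr
        _ = (ENNReal.ofReal (c0 * (C⁻¹ * ρ') / (C * ρA) ^ 2) * (ENNReal.ofReal (C * ρA) * ENNReal.ofReal (C * ρA))) * (volume (SB (orb f F x) n ρA) * volume (SB (fun i => orb f F x (n + 1 + i)) k ρA)) := by ring
        _ = ENNReal.ofReal (C⁻¹ * ρ') * (ENNReal.ofReal c0 * (volume (SB (orb f F x) n ρA) * volume (SB (fun i => orb f F x (n + 1 + i)) k ρA))) := by rw [hcc]; ring
        _ ≤ ENNReal.ofReal (C⁻¹ * ρ') * volume (SB (orb f F x) (n + k + 3) ρ') := by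
            gcongr
            exact hc n k (orb f F x) (fun i => g1 x i)
        _ ≤ μ (BB d f (T + U) x ε') := hD
    have hcp : 0 < c0 * (C⁻¹ * ρ') / (C * ρA) ^ 2 := by positivity
    refine (GVV_div _ hcp _ _ hfin).trans ?_
    gcongr
    linarith
  · -- (2)
    set n : ℕ := ⌈T⌉₊ with hn
    set k : ℕ := ⌈U⌉₊ with hk
    set N : ℕ := ⌊T + U⌋₊ with hN
    have hNk : n + k ≤ N + 2 := GVV_fl T U hT hU
    have n1 : T ≤ n := Nat.le_ceil T
    have n2 : (n : ℝ) ≤ T + 1 := (Nat.ceil_lt_add_one hT).le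
    have k1' : U ≤ k := Nat.le_ceil U
    have hN1 : (N : ℝ) ≤ T + U := Nat.floor_le (by linarith)
    have horb : (fun i => orb f F x (n + i)) = orb f F (f n x) := by
      funext i
      exact (g2 x n i).symm
    have u1 : μ (BB d f (T + U) x ε) ≤ ENNReal.ofReal (C * ρA) * volume (SB (orb f F x) N ρA) :=
      (measure_mono (GGV_mono d f _ _ x ε ε hN1 le_rfl)).trans (hup x N)
    have u2 : volume (SB (orb f F x) N ρA) ≤ ENNReal.ofReal Ca * volume (SB (orb f F x) (N + 2) ρA) := (ga N 2 (orb f F x) (by norm_num) (fun i => g1 x i)).2.1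
    have u3 : volume (SB (orb f F x) (N + 2) ρA) ≤ volume (SB (orb f F x) (n + k) ρA) := measure_mono (GVV_mn _ _ _ _ _ hNk le_rfl)
    have u4 : volume (SB (orb f F x) (n + k) ρA) ≤ ENNReal.ofReal Cb * (volume (SB (orb f F x) n ρ') * volume (SB (orb f F (f n x)) k ρ')) := by
      have h := gb n k (orb f F x) (fun i _ => g1 x i)
      rw [horb] at h
      exact h
    have l1 : ENNReal.ofReal (C⁻¹ * ρ') * volume (SB (orb f F x) n ρ') ≤ μ (BB d f T x ε') :=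
      (hlow ρ' hρ'pos r3 x n).trans (measure_mono (GGV_mono d f _ _ x _ _ n1 (r7.trans r8)))
    have l2 : ENNReal.ofReal (C⁻¹ * ρ') * volume (SB (orb f F (f n x)) k ρ') ≤ μ (BB d f U (f T x) ε') :=
      (hlow ρ' hρ'pos r3 (f n x) k).trans ((measure_mono (GGV_mono d f _ _ _ _ _ le_rfl r7)).trans (GVV_back μ d f C hC hS.f0 hS.fa hS.fm hS.lp x T U ε' n k hε' n1 n2 k1'))
    have l3 : ENNReal.ofReal ((C⁻¹ * ρ') * (C⁻¹ * ρ')) * (volume (SB (orb f F x) n ρ') * volume (SB (orb f F (f n x)) k ρ')) ≤ μ (BB d f T x ε') * μ (BB d f U (f T x) ε') := by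
      rw [ENNReal.ofReal_mul hsm.le]
      calc ENNReal.ofReal (C⁻¹ * ρ') * ENNReal.ofReal (C⁻¹ * ρ') * (volume (SB (orb f F x) n ρ') * volume (SB (orb f F (f n x)) k ρ'))
          = (ENNReal.ofReal (C⁻¹ * ρ') * volume (SB (orb f F x) n ρ')) * (ENNReal.ofReal (C⁻¹ * ρ') * volume (SB (orb f F (f n x)) k ρ')) := by ring
        _ ≤ μ (BB d f T x ε') * μ (BB d f U (f T x) ε') := by gcongr
    have l4 := GVV_div _ (mul_pos hsm hsm) _ _ l3
    calc μ (BB d f (T + U) x ε) ≤ ENNReal.ofReal (C * ρA) * (ENNReal.ofReal Ca * (ENNReal.ofReal Cb * (ENNReal.ofReal ((C⁻¹ * ρ') * (C⁻¹ * ρ'))⁻¹ * (μ (BB d f T x ε') * μ (BB d f U (f T x) ε'))))) := by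
          refine u1.trans ?_
          gcongr
          refine u2.trans ?_
          gcongr
          refine (u3.trans u4).trans ?_
          gcongr
      _ = ENNReal.ofReal k2 * (μ (BB d f T x ε') * μ (BB d f U (f T x) ε')) := by
          rw [hk2, ENNReal.ofReal_mul hbig.le, ENNReal.ofReal_mul hCa.le, ENNReal.ofReal_mul hCb.le]
          ring
      _ ≤ ENNReal.ofReal (1 + k1 + k2 + k3 + k4) * (μ (BB d f T x ε') * μ (BB d f U (f T x) ε')) := by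
          gcongr
          linarith
  · -- (3)
    have h := hlow ρ2 hρ2pos s3 x 0
    rw [b1, Nat.cast_zero] at h
    have h1 : ENNReal.ofReal (C⁻¹ * ρ2 * v2) ≤ μ (BB d f 0 x ε) := by
      rw [ENNReal.ofReal_mul hsm2.le, hv2, ENNReal.ofReal_toReal fin2]
      exact h.trans (measure_mono (GGV_mono d f _ _ x _ _ le_rfl s7))
    refine le_trans (ENNReal.ofReal_le_ofReal ?_) h1
    have h2 : C⁻¹ * ρ2 * v2 = k3⁻¹ := by rw [hk3, inv_inv]
    rw [h2]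
    exact inv_anti₀ k3p (by linarith)
  · -- (4)
    have h := hup x 0
    rw [b1, Nat.cast_zero] at h
    refine h.trans ?_
    have h1 : ENNReal.ofReal (C * ρA) * volume (Metric.closedBall (0 : EE m) ρA) = ENNReal.ofReal k4 := by
      rw [hk4, ENNReal.ofReal_mul hbig.le, hvA, ENNReal.ofReal_toReal finA]
    rw [h1]
    exact hmon _ (by linarith)

end Pool.Agent.VDG
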